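import Pool.Agent.R672.Cube.Defs

set_option autoImplicit false

namespace Pool.Agent.R672.Cube

open Filter Topology

theorem mem_ball1 {n : ℕ} {v w : V n} : w ∈ ball n 1 v ↔ w = v ∨ (cube n).Adj v w := by
  unfold ball
  rw [Set.mem_setOf_eq]
  constructor
  · intro h
    by_cases h0 : (cube n).edist v w = 0
    · left
      exact (SimpleGraph.edist_eq_zero_iff.1 h0).symm
    · right
      rw [← SimpleGraph.edist_eq_one_iff_adj]
      apply le_antisymm h
      exact Order.one_le_iff_pos.2 (pos_iff_ne_zero.2 h0)
  · rintro (h | h)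
    · subst h
      simp
    · rw [← SimpleGraph.edist_eq_one_iff_adj] at h
      rw [h]
      simp

/-- `v` with the coordinate `i` flipped -/
def flip {n : ℕ} (i : Fin n) (v : V n) : V n := Function.update v i (!v i)

theorem flip_ne {n : ℕ} {i : Fin n} {v : V n} {j : Fin n} : v j ≠ flip i v j ↔ j = i := by
  unfold flip
  by_cases h : j = i
  · subst h
    simp
  · simp [Function.update_of_ne h, h]

theorem adj_iff {n : ℕ} {v w : V n} : (cube n).Adj v w ↔ ∃ i, w = flip i v := by
  constructor
  · rintro ⟨i, hi⟩
    refine ⟨i, ?_⟩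
    funext j
    by_cases h : j = i
    · subst h
      have h1 := (hi j).2 rfl
      unfold flip
      simp only [Function.update_self]
      revert h1
      cases v j <;> cases w j <;> simp
    · have h1 : ¬ (v j ≠ w j) := fun h2 => h ((hi j).1 h2)
      push Not at h1
      unfold flip
      rw [Function.update_of_ne h, h1]
  · rintro ⟨i, rfl⟩
    exact ⟨i, fun j => flip_ne⟩

theorem flip_injective {n : ℕ} (v : V n) : Function.Injective (fun i => flip i v) := by
  intro i j h
  have h1 : v i ≠ flip i v i := flip_ne.2 rfl
  have h2 : flip i v i = flip j v i := congrFun h i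
  rw [h2] at h1
  exact flip_ne.1 h1

theorem flip_ne_self {n : ℕ} (i : Fin n) (v : V n) : flip i v ≠ v := by
  intro h
  have h1 : v i ≠ flip i v i := flip_ne.2 rfl
  rw [h] at h1
  exact h1 rfl

end Pool.Agent.R672.Cube
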