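import Mathlib

set_option autoImplicit false

/-!
Definitions for MP_3a0ec5_pr (1-ball reconstructibility of random colourings of the hypercube).
-/

namespace Pool.Agent.R672.Cube

open Filter Topology

/-- the vertices of the hypercube `Q_n` -/
abbrev V (n : ℕ) := Fin n → Bool

/-- the hypercube `Q_n`: two vertices are adjacent iff they differ in exactly one coordinate -/
def cube (n : ℕ) : SimpleGraph (V n) where
  Adj u v := ∃ i, ∀ j, u j ≠ v j ↔ j = i
  symm := ⟨by
    rintro u v ⟨i, hi⟩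
    exact ⟨i, fun j => by rw [← hi j]; exact ne_comm⟩⟩
  loopless := ⟨by
    rintro u ⟨i, hi⟩
    exact ((hi i).2 rfl) rfl⟩

/-- the set of the vertices at graph distance at most `r` from `v` -/
def ball (n r : ℕ) (v : V n) : Set (V n) := {w | (cube n).edist v w ≤ (r : ℕ∞)}

/-- the coloured `r`-balls `χ` at `u` and `lam` at `w` are isomorphic -/
def BallIso {n : ℕ} (r : ℕ) (χ lam : V n → ℕ) (u w : V n) : Prop :=
  ∃ φ : (cube n).induce (ball n r u) ≃g (cube n).induce (ball n r w),
    ∀ x, lam (φ x).1 = χ x.1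

/-- `χ = lam ∘ g` for some automorphism `g` of `Q_n` -/
def Equivalent {n : ℕ} (χ lam : V n → ℕ) : Prop :=
  ∃ g : cube n ≃g cube n, ∀ v, χ v = lam (g v)

/-- `χ` and `lam` are `r`-locally equivalent -/
def LocEq {n : ℕ} (r : ℕ) (χ lam : V n → ℕ) : Prop :=
  ∃ f : V n ≃ V n, ∀ v, BallIso r χ lam v (f v)

/-- `χ` is `r`-distinguishable -/
def Distinguishable {n : ℕ} (r : ℕ) (χ : V n → ℕ) : Prop :=
  ∀ lam : V n → ℕ, LocEq r χ lam → Equivalent lam χ

/-- the colouring with colours `1, ..., q` given by `c : V n → Fin q` -/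
def col {n q : ℕ} (c : V n → Fin q) : V n → ℕ := fun v => (c v : ℕ) + 1

/-- the probability that a random `q`-colouring of `Q_n` is `1`-distinguishable: the proportion of
the `1`-distinguishable ones among all maps from the vertices to `q` colours -/
noncomputable def prob (n q : ℕ) : ℝ :=
  (Nat.card {c : V n → Fin q // Distinguishable 1 (col c)} : ℝ) / (Nat.card (V n → Fin q) : ℝ)

/-- a random `q n`-colouring of `Q_n` is `1`-distinguishable with high probability -/
def Whp (q : ℕ → ℕ) : Prop := Tendsto (fun n => prob n (q n)) atTop (𝓝 1)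

/-- the literal Q1 is false (`q = 1`) -/
def S_LIT : Prop := ∃ q : ℕ → ℕ, (∀ n, 1 ≤ q n) ∧ Whp q ∧
  Tendsto (fun n => prob n (q n + 1)) atTop (𝓝 0)

/-- Lemma A: lifting distinguishability along a reduction of the colours -/
def S_A : Prop := ∀ (n : ℕ) (χ' : V n → ℕ) (P : ℕ → ℕ), 2 ≤ n →
  Distinguishable 1 (fun v => P (χ' v)) →
  (∀ u w : V n, BallIso 1 (fun v => P (χ' v)) (fun v => P (χ' v)) u w → u = w) →
  Distinguishable 1 χ'

/-- Lemma B: the number of the colourings with two isomorphic `1`-balls -/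
def S_B : Prop := ∀ (n q : ℕ), 2 ≤ n → 8 * n ≤ q →
  (Nat.card {c : V n → Fin q // ∃ u w : V n, u ≠ w ∧ BallIso 1 (col c) (col c) u w} : ℝ) /
    (Nat.card (V n → Fin q) : ℝ) ≤ 64 * (n : ℝ) ^ 2 / 2 ^ n

/-- monotonicity along multiples -/
def S_MULT : Prop := ∀ q k : ℕ → ℕ, (∀ n, 1 ≤ k n) → (∀ᶠ n in atTop, 8 * n ≤ q n) →
  Whp q → Whp (fun n => k n * q n)

end Pool.Agent.R672.Cube
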