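import Pool.Agent.R672.Cube.Basic

set_option autoImplicit false

/-!
MP_3a0ec5_pr, Lemma A: lifting distinguishability along a reduction of the colours.
-/

namespace Pool.Agent.R672.Cube

theorem lemA_noadj {n : ℕ} (v : V n) (i j : Fin n) :
    ¬ (cube n).Adj (flip i v) (flip j v) := by
  rintro ⟨k, hk⟩
  by_cases hij : i = j
  · subst hij
    exact (hk k).2 rfl rfl
  · have h1 : flip i v i ≠ flip j v i := by
      have a : v i ≠ flip i v i := flip_ne.2 rfl
      have b : ¬ (v i ≠ flip j v i) := fun h => hij (flip_ne.1 h)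
      push Not at b
      rw [← b]
      exact a.symm
    have h2 : flip i v j ≠ flip j v j := by
      have a : v j ≠ flip j v j := flip_ne.2 rfl
      have b : ¬ (v j ≠ flip i v j) := fun h => hij (flip_ne.1 h).symm
      push Not at b
      rw [← b]
      exact a
    exact hij (((hk i).1 h1).trans ((hk j).1 h2).symm)

theorem lemA_self_mem {n : ℕ} (v : V n) : v ∈ ball n 1 v := mem_ball1.2 (Or.inl rfl)

theorem lemA_flip_mem {n : ℕ} (i : Fin n) (v : V n) : flip i v ∈ ball n 1 v :=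
  mem_ball1.2 (Or.inr (adj_iff.2 ⟨i, rfl⟩))

/-- an automorphism restricts to the balls -/
theorem lemA_auto {n : ℕ} (g : cube n ≃g cube n) (lam : V n → ℕ) (w : V n) :
    BallIso 1 lam (fun v => lam (g.symm v)) w (g w) := by
  have hmem : ∀ a : V n, a ∈ ball n 1 w ↔ g.toEquiv a ∈ ball n 1 (g w) := by
    intro a
    rw [mem_ball1, mem_ball1]
    have h1 : (g.toEquiv a = g w) ↔ a = w := g.injective.eq_iff
    have h2 : (cube n).Adj (g w) (g.toEquiv a) ↔ (cube n).Adj w a := g.map_adj_iff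
    rw [h1, h2]
  refine ⟨⟨g.toEquiv.subtypeEquiv hmem, ?_⟩, ?_⟩
  · intro a b
    show (cube n).Adj (g a.1) (g b.1) ↔ (cube n).Adj a.1 b.1
    exact g.map_adj_iff
  · intro x
    show lam (g.symm (g x.1)) = lam x.1
    rw [g.symm_apply_apply]

theorem lemA_trans {n r : ℕ} {χ lam mu : V n → ℕ} {u w z : V n} (h1 : BallIso r χ lam u w)
    (h2 : BallIso r lam mu w z) : BallIso r χ mu u z := by
  obtain ⟨φ, hφ⟩ := h1
  obtain ⟨ψ, hψ⟩ := h2
  refine ⟨φ.trans ψ, fun x => ?_⟩
  have := hψ (φ x)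
  rw [hφ x] at this
  exact this

theorem lemA_map {n r : ℕ} {χ lam : V n → ℕ} {u w : V n} (P : ℕ → ℕ)
    (h : BallIso r χ lam u w) :
    BallIso r (fun v => P (χ v)) (fun v => P (lam v)) u w := by
  obtain ⟨φ, hφ⟩ := h
  exact ⟨φ, fun x => congrArg P (hφ x)⟩

/-- an isomorphism of balls maps the centre to the centre -/
theorem lemA_centre {n : ℕ} (hn : 2 ≤ n) (u w : V n)
    (φ : (cube n).induce (ball n 1 u) ≃g (cube n).induce (ball n 1 w)) :
    (φ ⟨u, lemA_self_mem u⟩).1 = w := by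
  by_contra hne
  set i0 : Fin n := ⟨0, by omega⟩ with hi0
  set i1 : Fin n := ⟨1, by omega⟩ with hi1
  have hi : i0 ≠ i1 := by
    rw [hi0, hi1]
    simp
  have key : ∀ i : Fin n, (φ ⟨flip i u, lemA_flip_mem i u⟩).1 = w := by
    intro i
    have hadj : ((cube n).induce (ball n 1 u)).Adj ⟨u, lemA_self_mem u⟩
        ⟨flip i u, lemA_flip_mem i u⟩ := by
      show (cube n).Adj u (flip i u)
      exact adj_iff.2 ⟨i, rfl⟩
    have hadj2 : (cube n).Adj (φ ⟨u, lemA_self_mem u⟩).1
        (φ ⟨flip i u, lemA_flip_mem i u⟩).1 := φ.map_adj_iff.2 hadj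
    have hc := mem_ball1.1 (φ ⟨u, lemA_self_mem u⟩).2
    have hy := mem_ball1.1 (φ ⟨flip i u, lemA_flip_mem i u⟩).2
    rcases hc with hc | hc
    · exact absurd hc hne
    · rcases hy with hy | hy
      · exact hy
      · exfalso
        obtain ⟨a, ha⟩ := adj_iff.1 hc
        obtain ⟨b, hb⟩ := adj_iff.1 hy
        rw [ha, hb] at hadj2
        exact lemA_noadj w a b hadj2
  have h0 := key i0
  have h1 := key i1
  have h2 : φ ⟨flip i0 u, lemA_flip_mem i0 u⟩ = φ ⟨flip i1 u, lemA_flip_mem i1 u⟩ :=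
    Subtype.ext (h0.trans h1.symm)
  have h3 := congrArg Subtype.val (φ.injective h2)
  exact hi (flip_injective u h3)

theorem lemA : S_A := by
  intro n χ' P hn hD hB lam' hL
  obtain ⟨f, hf⟩ := hL
  obtain ⟨g, hg⟩ := hD (fun v => P (lam' v)) ⟨f, fun v => lemA_map P (hf v)⟩
  refine ⟨g, ?_⟩
  have hmu : (fun v => P (lam' (g.symm v))) = (fun v => P (χ' v)) := by
    funext v
    have := hg (g.symm v)
    simpa using this
  have hfix : ∀ v : V n, lam' (g.symm v) = χ' v := by
    intro v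
    have h1 : BallIso 1 χ' (fun v => lam' (g.symm v)) v (g (f v)) :=
      lemA_trans (hf v) (lemA_auto g lam' (f v))
    have h2 := lemA_map P h1
    rw [hmu] at h2
    have h3 : v = g (f v) := hB v (g (f v)) h2
    rw [← h3] at h1
    obtain ⟨φ, hφ⟩ := h1
    have h4 := hφ ⟨v, lemA_self_mem v⟩
    rw [lemA_centre hn v v φ] at h4
    exact h4
  intro v
  have := hfix (g v)
  simpa using this

end Pool.Agent.R672.Cube
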