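import Pool.Agent.R672.Cube.Basic

set_option autoImplicit false

/-! Lemma B: union bound for two isomorphic `1`-balls in a random colouring. -/

namespace Pool.Agent.R672.Cube

open Filter Topology

theorem lemB_differ {n : ℕ} {w w' : V n} (h : w' ∈ ball n 1 w) {j k : Fin n}
    (hj : w' j ≠ w j) (hk : w' k ≠ w k) : j = k := by
  rw [mem_ball1] at h
  rcases h with rfl | h
  · exact absurd rfl hj
  · obtain ⟨i, hi⟩ := h
    have h1 := (hi j).1 (Ne.symm hj)
    have h2 := (hi k).1 (Ne.symm hk)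
    rw [h1, h2]

theorem lemB_flip_other {n : ℕ} {w : V n} {j k : Fin n} (h : k ≠ j) : flip j w k = w k := by
  by_contra h1
  exact h (flip_ne.1 (Ne.symm h1))

theorem lemB_only {n : ℕ} {w y : V n} {k : Fin n} (hy : y ∈ ball n 1 w)
    (ha : (cube n).Adj (flip k w) y) : y = w := by
  rw [mem_ball1] at hy
  rcases hy with h | h
  · exact h
  · exfalso
    rw [adj_iff] at h
    obtain ⟨j, rfl⟩ := h
    obtain ⟨i, hi⟩ := ha
    by_cases hjk : j = k
    · subst hjk
      exact ((hi i).2 rfl) rfl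
    · have e1 : flip k w k ≠ w k := Ne.symm (flip_ne.2 rfl)
      have e2 : flip j w j ≠ w j := Ne.symm (flip_ne.2 rfl)
      have h1 : k = i := (hi k).1 (by
        rw [lemB_flip_other (j := j) (Ne.symm hjk)]
        exact e1)
      have h2 : j = i := (hi j).1 (by
        rw [lemB_flip_other (j := k) hjk]
        exact Ne.symm e2)
      exact hjk (h2.trans h1.symm)

theorem lemB_perm {n q : ℕ} (hn : 2 ≤ n) {c : V n → Fin q} {u w : V n}
    (h : BallIso 1 (col c) (col c) u w) :
    ∃ σ : Equiv.Perm (Fin n), ∀ i, c (flip i u) = c (flip (σ i) w) := by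
  obtain ⟨φ, hφ⟩ := h
  have hu : u ∈ ball n 1 u := mem_ball1.2 (Or.inl rfl)
  have hf : ∀ i, flip i u ∈ ball n 1 u := fun i => mem_ball1.2 (Or.inr (adj_iff.2 ⟨i, rfl⟩))
  have hadj : ∀ i, ((cube n).induce (ball n 1 u)).Adj ⟨u, hu⟩ ⟨flip i u, hf i⟩ :=
    fun i => adj_iff.2 ⟨i, rfl⟩
  have hadj' : ∀ i, (cube n).Adj (φ ⟨u, hu⟩).1 (φ ⟨flip i u, hf i⟩).1 :=
    fun i => φ.map_adj_iff.2 (hadj i)
  have hc : (φ ⟨u, hu⟩).1 = w := by
    rcases mem_ball1.1 (φ ⟨u, hu⟩).2 with h | h
    · exact h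
    · exfalso
      obtain ⟨k, hk⟩ := adj_iff.1 h
      have key : ∀ i, (φ ⟨flip i u, hf i⟩).1 = w := fun i =>
        lemB_only (k := k) (φ ⟨flip i u, hf i⟩).2 (by rw [← hk]; exact hadj' i)
      have h01 : φ ⟨flip ⟨0, by omega⟩ u, hf _⟩ = φ ⟨flip ⟨1, by omega⟩ u, hf _⟩ :=
        Subtype.ext ((key _).trans (key _).symm)
      have h2 := flip_injective u (congrArg Subtype.val (φ.injective h01))
      simp at h2
  have hs : ∀ i, ∃ j, (φ ⟨flip i u, hf i⟩).1 = flip j w := fun i => by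
    have := hadj' i
    rw [hc] at this
    exact adj_iff.1 this
  choose s hs using hs
  have hinj : Function.Injective s := by
    intro i j hij
    have h1 : φ ⟨flip i u, hf i⟩ = φ ⟨flip j u, hf j⟩ := Subtype.ext (by rw [hs, hs, hij])
    exact flip_injective u (congrArg Subtype.val (φ.injective h1))
  refine ⟨Equiv.ofBijective s (Finite.injective_iff_bijective.1 hinj), fun i => ?_⟩
  have h1 := hφ ⟨flip i u, hf i⟩
  rw [hs] at h1
  unfold col at h1
  apply Fin.ext
  have h2 : ((c (flip (s i) w) : ℕ)) = c (flip i u) := by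
    simpa using h1
  exact h2.symm

open Classical in
theorem lemB_bad {n : ℕ} {u w : V n} (huw : u ≠ w) :
    (Finset.univ.filter (fun i : Fin n => flip i u ∈ ball n 1 w)).card ≤ 2 := by
  by_contra hcon
  push Not at hcon
  obtain ⟨a, ha, b, hb, c, hc, hab, hac, hbc⟩ := Finset.two_lt_card.1 hcon
  rw [Finset.mem_filter] at ha hb hc
  obtain ⟨j0, hj0⟩ := Function.ne_iff.1 huw
  have inD : ∀ i, flip i u ∈ ball n 1 w → u i ≠ w i := by
    intro i hi hui
    have hij : i ≠ j0 := by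
      rintro rfl
      exact hj0 hui
    have h1 : flip i u i ≠ w i := by
      rw [← hui]
      exact Ne.symm (flip_ne.2 rfl)
    have h2 : flip i u j0 ≠ w j0 := by
      rw [lemB_flip_other (Ne.symm hij)]
      exact hj0
    exact hij (lemB_differ hi h1 h2)
  have hDb := inD b hb.2
  have hDc := inD c hc.2
  have h1 : flip a u b ≠ w b := by
    rw [lemB_flip_other (Ne.symm hab)]
    exact hDb
  have h2 : flip a u c ≠ w c := by
    rw [lemB_flip_other (Ne.symm hac)]
    exact hDc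
  exact hbc (lemB_differ ha.2 h1 h2)

open Classical in
theorem lemB_count {n q : ℕ} (hq : 1 ≤ q) {u w : V n} (huw : u ≠ w)
    (σ : Equiv.Perm (Fin n)) :
    (Finset.univ.filter (fun c : V n → Fin q => ∀ i, c (flip i u) = c (flip (σ i) w))).card ≤
      q ^ (2 ^ n - (n - 2)) := by
  obtain ⟨S, hSdef⟩ : ∃ S : Finset (V n), S = (Finset.univ.filter
      (fun i : Fin n => ¬ flip i u ∈ ball n 1 w)).image (fun i => flip i u) := ⟨_, rfl⟩
  have hScard : n - 2 ≤ S.card := by
    rw [hSdef, Finset.card_image_of_injective _ (flip_injective u)]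
    have h1 := Finset.card_filter_add_card_filter_not (s := (Finset.univ : Finset (Fin n)))
      (fun i : Fin n => flip i u ∈ ball n 1 w)
    rw [Finset.card_univ, Fintype.card_fin] at h1
    have h2 := lemB_bad huw
    omega
  have hS : ∀ v ∈ S, v ∉ ball n 1 w := by
    intro v hv
    rw [hSdef, Finset.mem_image] at hv
    obtain ⟨i, hi, rfl⟩ := hv
    exact (Finset.mem_filter.1 hi).2
  have hcard : (Finset.univ.filter (fun c : V n → Fin q =>
      ∀ i, c (flip i u) = c (flip (σ i) w))).card ≤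
      (Finset.univ : Finset ((Sᶜ : Finset (V n)) → Fin q)).card := by
    refine Finset.card_le_card_of_injOn (fun c v => c v.1) (fun _ _ => Finset.mem_coe.2
      (Finset.mem_univ _)) ?_
    intro c hc c' hc' heq
    have hc1 := (Finset.mem_filter.1 (Finset.mem_coe.1 hc)).2
    have hc2 := (Finset.mem_filter.1 (Finset.mem_coe.1 hc')).2
    have hout : ∀ v, v ∉ S → c v = c' v := by
      intro v hv
      exact congrFun heq ⟨v, Finset.mem_compl.2 hv⟩
    funext v
    by_cases hv : v ∈ S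
    · have hv' := hv
      rw [hSdef, Finset.mem_image] at hv'
      obtain ⟨i, hi, rfl⟩ := hv'
      rw [hc1 i, hc2 i]
      refine hout _ fun hmem => ?_
      exact hS _ hmem (mem_ball1.2 (Or.inr (adj_iff.2 ⟨σ i, rfl⟩)))
    · exact hout v hv
  refine hcard.trans ?_
  rw [Finset.card_univ, Fintype.card_fun, Fintype.card_fin, Fintype.card_coe, Finset.card_compl]
  have hV : Fintype.card (V n) = 2 ^ n := by simp
  rw [hV]
  exact Nat.pow_le_pow_right hq (by omega)

/-- Lemma B -/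
theorem lemB : S_B := by
  classical
  intro n q hn hq
  have hq1 : 1 ≤ q := by omega
  obtain ⟨X, hX⟩ : ∃ X : Finset (V n → Fin q), X = Finset.univ.filter (fun c =>
      ∃ u w : V n, u ≠ w ∧ BallIso 1 (col c) (col c) u w) := ⟨_, rfl⟩
  have hNX : Nat.card {c : V n → Fin q // ∃ u w : V n, u ≠ w ∧ BallIso 1 (col c) (col c) u w} =
      X.card := by
    rw [Nat.card_eq_fintype_card, Fintype.card_subtype, hX]
  have hT : Nat.card (V n → Fin q) = q ^ (2 ^ n) := by
    rw [Nat.card_eq_fintype_card, Fintype.card_fun, Fintype.card_fin]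
    simp
  have hXle : X.card ≤ (2 ^ n * (2 ^ n * n.factorial)) * q ^ (2 ^ n - (n - 2)) := by
    have hsub : X ⊆ (Finset.univ : Finset (V n × V n × Equiv.Perm (Fin n))).biUnion
        (fun p => if p.1 = p.2.1 then ∅ else Finset.univ.filter (fun c : V n → Fin q =>
          ∀ i, c (flip i p.1) = c (flip (p.2.2 i) p.2.1))) := by
      intro c hc
      rw [hX, Finset.mem_filter] at hc
      obtain ⟨_, u, w, huw, hb⟩ := hc
      obtain ⟨σ, hσ⟩ := lemB_perm hn hb
      rw [Finset.mem_biUnion]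
      refine ⟨(u, w, σ), Finset.mem_univ _, ?_⟩
      rw [if_neg huw, Finset.mem_filter]
      exact ⟨Finset.mem_univ _, hσ⟩
    refine (Finset.card_le_card hsub).trans ?_
    have hcu : (Finset.univ : Finset (V n × V n × Equiv.Perm (Fin n))).card =
        2 ^ n * (2 ^ n * n.factorial) := by
      rw [Finset.card_univ, Fintype.card_prod, Fintype.card_prod, Fintype.card_perm,
        Fintype.card_fin]
      simp
    rw [← hcu]
    refine Finset.card_biUnion_le_card_mul _ _ _ ?_
    rintro ⟨u, w, σ⟩ _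
    by_cases h : u = w
    · simp [h]
    · simp only [if_neg h]
      exact lemB_count hq1 h σ
  have hpow : q ^ (2 ^ n) = q ^ (2 ^ n - (n - 2)) * q ^ (n - 2) := by
    rw [← pow_add]
    congr 1
    have : n < 2 ^ n := Nat.lt_two_pow_self
    omega
  have hfac : 2 ^ n * (2 ^ n * n.factorial) * 2 ^ n ≤ 64 * n ^ 2 * q ^ (n - 2) := by
    have h1 : n.factorial ≤ n ^ n := Nat.factorial_le_pow n
    have h2 : (8 * n) ^ (n - 2) ≤ q ^ (n - 2) := Nat.pow_le_pow_left hq _
    have h3 : 64 * n ^ 2 * (8 * n) ^ (n - 2) = (8 * n) ^ n := by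
      have h4 : (8 * n) ^ n = (8 * n) ^ (2 + (n - 2)) := by congr 1; omega
      rw [h4, pow_add]
      ring
    calc 2 ^ n * (2 ^ n * n.factorial) * 2 ^ n
        ≤ 2 ^ n * (2 ^ n * n ^ n) * 2 ^ n := by gcongr
      _ = (8 * n) ^ n := by
          rw [mul_pow, show (8 : ℕ) = 2 * 2 * 2 by norm_num, mul_pow, mul_pow]
          ring
      _ = 64 * n ^ 2 * (8 * n) ^ (n - 2) := h3.symm
      _ ≤ 64 * n ^ 2 * q ^ (n - 2) := Nat.mul_le_mul_left _ h2
  have hfin : X.card * 2 ^ n ≤ 64 * n ^ 2 * q ^ (2 ^ n) := by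
    calc X.card * 2 ^ n ≤ (2 ^ n * (2 ^ n * n.factorial)) * q ^ (2 ^ n - (n - 2)) * 2 ^ n :=
          Nat.mul_le_mul_right _ hXle
      _ = (2 ^ n * (2 ^ n * n.factorial) * 2 ^ n) * q ^ (2 ^ n - (n - 2)) := by ring
      _ ≤ (64 * n ^ 2 * q ^ (n - 2)) * q ^ (2 ^ n - (n - 2)) := Nat.mul_le_mul_right _ hfac
      _ = 64 * n ^ 2 * q ^ (2 ^ n) := by rw [hpow]; ring
  rw [hNX, hT]
  have hqpos : (0 : ℝ) < ((q ^ (2 ^ n) : ℕ) : ℝ) := by
    have : 0 < q ^ (2 ^ n) := Nat.pow_pos (by omega)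
    exact_mod_cast this
  rw [div_le_div_iff₀ hqpos (by positivity)]
  exact_mod_cast hfin

end Pool.Agent.R672.Cube
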