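import Pool.Agent.R672.Cube.Basic

set_option autoImplicit false

namespace Pool.Agent.R672.Cube

open Filter Topology

theorem lit_equiv {α β : Type*} [Fintype α] [DecidableEq β] (a b : α → β)
    (h : ∀ t, Fintype.card {i // a i = t} = Fintype.card {i // b i = t}) :
    ∃ σ : α ≃ α, ∀ i, b (σ i) = a i := by
  let e : ∀ t, {i // a i = t} ≃ {i // b i = t} := fun t => Fintype.equivOfCardEq (h t)
  refine ⟨(Equiv.sigmaFiberEquiv a).symm.trans
    ((Equiv.sigmaCongrRight e).trans (Equiv.sigmaFiberEquiv b)), fun i => ?_⟩
  exact (e (a i) ⟨i, rfl⟩).2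

/-- restriction of an automorphism to a ball -/
theorem ballIso_of_iso {n : ℕ} (g : cube n ≃g cube n) (χ lam : V n → ℕ) (u w : V n)
    (hg : g u = w) (h : ∀ x ∈ ball n 1 u, lam (g x) = χ x) : BallIso 1 χ lam u w := by
  have hm : ∀ x, x ∈ ball n 1 u ↔ g x ∈ ball n 1 w := by
    intro x
    rw [mem_ball1, mem_ball1, ← hg]
    constructor
    · rintro (h1 | h1)
      · left; rw [h1]
      · right; exact g.map_adj_iff.2 h1
    · rintro (h1 | h1)
      · left; exact g.injective h1
      · right; exact g.map_adj_iff.1 h1
  refine ⟨⟨g.toEquiv.subtypeEquiv hm, ?_⟩, ?_⟩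
  · intro a b
    exact g.map_adj_iff
  · intro x
    exact h x.1 x.2

/-- the automorphism given by a permutation of the coordinates and a translation -/
def litAut {n : ℕ} (σ : Fin n ≃ Fin n) (u w : V n) : cube n ≃g cube n where
  toFun x := fun j => ((x (σ.symm j)).xor (u (σ.symm j))).xor (w j)
  invFun y := fun i => ((y (σ i)).xor (w (σ i))).xor (u i)
  left_inv x := by
    funext i
    simp
  right_inv y := by
    funext i
    simp
  map_rel_iff' := by
    intro x y
    have key : ∀ j, (((x (σ.symm j)).xor (u (σ.symm j))).xor (w j) ≠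
        ((y (σ.symm j)).xor (u (σ.symm j))).xor (w j)) ↔ x (σ.symm j) ≠ y (σ.symm j) := by
      intro j
      generalize x (σ.symm j) = a
      generalize y (σ.symm j) = b
      generalize u (σ.symm j) = c
      generalize w j = d
      revert a b c d
      decide
    constructor
    · rintro ⟨i, hi⟩
      refine ⟨σ.symm i, fun j => ?_⟩
      have h2 := key (σ j)
      have h3 : (x (σ.symm (σ j)) ≠ y (σ.symm (σ j))) ↔ σ j = i := h2.symm.trans (hi (σ j))
      rw [Equiv.symm_apply_apply] at h3
      rw [h3]
      exact (Equiv.eq_symm_apply σ).symm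
    · rintro ⟨i, hi⟩
      refine ⟨σ i, fun j => ?_⟩
      change (((x (σ.symm j)).xor (u (σ.symm j))).xor (w j) ≠
        ((y (σ.symm j)).xor (u (σ.symm j))).xor (w j)) ↔ j = σ i
      rw [key j, hi (σ.symm j)]
      exact Equiv.symm_apply_eq σ

theorem litAut_self {n : ℕ} (σ : Fin n ≃ Fin n) (u w : V n) : litAut σ u w u = w := by
  funext j
  change ((u (σ.symm j)).xor (u (σ.symm j))).xor (w j) = w j
  simp

theorem litAut_flip {n : ℕ} (σ : Fin n ≃ Fin n) (u w : V n) (i : Fin n) :
    litAut σ u w (flip i u) = flip (σ i) w := by
  funext j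
  change ((flip i u (σ.symm j)).xor (u (σ.symm j))).xor (w j) = flip (σ i) w j
  unfold flip
  by_cases h : j = σ i
  · subst h
    simp
  · have h1 : σ.symm j ≠ i := fun h2 => h (by rw [← h2, Equiv.apply_symm_apply])
    rw [Function.update_of_ne h, Function.update_of_ne h1]
    simp

/-- equal types give isomorphic balls -/
theorem lit_ballIso {n : ℕ} (c1 c2 : V n → Fin 2) (u w : V n) (h0 : c1 u = c2 w)
    (h1 : Fintype.card {i // c1 (flip i u) = 1} = Fintype.card {i // c2 (flip i w) = 1}) :
    BallIso 1 (col c1) (col c2) u w := by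
  have hc : ∀ (c : V n → Fin 2) (x : V n), Fintype.card {i // c (flip i x) = 0} =
      n - Fintype.card {i // c (flip i x) = 1} := by
    intro c x
    have h2 : ∀ i, c (flip i x) = 0 ↔ ¬ c (flip i x) = 1 := by
      intro i
      generalize c (flip i x) = t
      revert t
      decide
    have h3 := Fintype.card_subtype_compl (fun i => c (flip i x) = 1)
    rw [Fintype.card_fin] at h3
    rw [← h3]
    exact Fintype.card_congr (Equiv.subtypeEquivRight h2)
  obtain ⟨σ, hσ⟩ := lit_equiv (fun i => c1 (flip i u)) (fun i => c2 (flip i w)) (by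
    intro t
    have ht : t = 0 ∨ t = 1 := by
      revert t
      decide
    rcases ht with rfl | rfl
    · rw [hc c1 u, hc c2 w, h1]
    · exact h1)
  refine ballIso_of_iso (litAut σ u w) _ _ u w (litAut_self σ u w) ?_
  intro x hx
  rw [mem_ball1] at hx
  rcases hx with rfl | hx
  · rw [litAut_self]
    unfold col
    rw [h0]
  · obtain ⟨i, rfl⟩ := adj_iff.1 hx
    rw [litAut_flip]
    unfold col
    rw [hσ i]

/-! ### rigidity of the hypercube -/

theorem lit_opp {n : ℕ} {a b x z : V n} (hax : (cube n).Adj a x) (hbx : (cube n).Adj b x)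
    (haz : (cube n).Adj a z) (hbz : (cube n).Adj b z) (hab : a ≠ b) (hxz : x ≠ z) (j : Fin n) :
    z j = (x j).xor ((a j).xor (b j)) := by
  obtain ⟨p, hp⟩ := hax
  obtain ⟨q, hq⟩ := hbx
  obtain ⟨r, hr⟩ := haz
  obtain ⟨s, hs⟩ := hbz
  have hpq : p ≠ q := by
    rintro rfl
    apply hab
    funext j
    have h1 := (hp j).trans (hq j).symm
    revert h1
    cases a j <;> cases b j <;> cases x j <;> simp
  have hpr : p ≠ r := by
    rintro rfl
    apply hxz
    funext j
    have h1 := (hp j).trans (hr j).symm
    revert h1
    cases a j <;> cases z j <;> cases x j <;> simp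
  have hsp : p = s := by
    rw [← hs p]
    have h1 := (hp p).2 rfl
    have h2 : ¬ (b p ≠ x p) := fun h => hpq ((hq p).1 h)
    have h3 : ¬ (a p ≠ z p) := fun h => hpr ((hr p).1 h)
    revert h1 h2 h3
    cases a p <;> cases z p <;> cases x p <;> cases b p <;> simp
  subst hsp
  have h1 := (hp j).trans (hs j).symm
  revert h1
  cases a j <;> cases z j <;> cases x j <;> cases b j <;> simp

theorem lit_common {n : ℕ} {a b x y z : V n} (hax : (cube n).Adj a x) (hbx : (cube n).Adj b x)
    (hay : (cube n).Adj a y) (hby : (cube n).Adj b y)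
    (haz : (cube n).Adj a z) (hbz : (cube n).Adj b z) (hab : a ≠ b) (hxz : x ≠ z) (hyz : y ≠ z) :
    x = y := by
  funext j
  rw [lit_opp haz hbz hax hbx hab hxz.symm j, lit_opp haz hbz hay hby hab hyz.symm j]

/-- the size of the support -/
def supp {n : ℕ} (v : V n) : ℕ := (Finset.univ.filter fun i => v i = true).card

theorem supp_flip_lt {n : ℕ} {v : V n} {i : Fin n} (h : v i = true) : supp (flip i v) < supp v := by
  unfold supp
  apply Finset.card_lt_card
  rw [Finset.ssubset_iff_of_subset]
  · exact ⟨i, by simp [h], by simp [flip, h]⟩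
  · intro j hj
    simp only [Finset.mem_filter, Finset.mem_univ, true_and] at hj ⊢
    by_cases hji : j = i
    · rw [hji]; exact h
    · unfold flip at hj
      rwa [Function.update_of_ne hji] at hj

theorem flip_flip {n : ℕ} (i : Fin n) (v : V n) : flip i (flip i v) = v := by
  funext j
  unfold flip
  by_cases h : j = i
  · subst h; simp
  · simp [Function.update_of_ne h]

theorem lit_rigid {n : ℕ} (g h : cube n ≃g cube n) (h0 : g (fun _ => false) = h (fun _ => false))
    (h1 : ∀ i, g (flip i (fun _ => false)) = h (flip i (fun _ => false))) :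
    ∀ (m : ℕ) (v : V n), supp v ≤ m → g v = h v := by
  intro m
  induction m with
  | zero =>
    intro v hv
    have h2 : v = fun _ => false := by
      funext i
      by_contra h3
      have h4 : i ∈ Finset.univ.filter fun i => v i = true := by
        simp only [Finset.mem_filter, Finset.mem_univ, true_and]
        simpa using h3
      have h5 : 0 < supp v := Finset.card_pos.2 ⟨i, h4⟩
      omega
    rw [h2, h0]
  | succ m ih =>
    intro v hv
    by_cases h2 : ∃ i, v i = true
    · obtain ⟨i, hi⟩ := h2
      by_cases h3 : ∃ j, j ≠ i ∧ v j = true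
      · obtain ⟨j, hji, hj⟩ := h3
        have ha : supp (flip i v) < supp v := supp_flip_lt hi
        have hb : supp (flip j v) < supp v := supp_flip_lt hj
        have hj' : flip i v j = true := by
          unfold flip
          rw [Function.update_of_ne hji, hj]
        have hc : supp (flip j (flip i v)) < supp (flip i v) := supp_flip_lt hj'
        have ea := ih (flip i v) (by omega)
        have eb := ih (flip j v) (by omega)
        have ec := ih (flip j (flip i v)) (by omega)
        have hcomm : flip j (flip i v) = flip i (flip j v) := by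
          funext k
          unfold flip
          by_cases hk : k = j
          · subst hk
            simp [Function.update_of_ne hji]
          · by_cases hk' : k = i
            · subst hk'
              simp [Function.update_of_ne hk]
            · simp [Function.update_of_ne hk, Function.update_of_ne hk']
        have a1 : (cube n).Adj (flip i v) v := (adj_iff.2 ⟨i, rfl⟩).symm
        have a2 : (cube n).Adj (flip j v) v := (adj_iff.2 ⟨j, rfl⟩).symm
        have a3 : (cube n).Adj (flip i v) (flip j (flip i v)) := adj_iff.2 ⟨j, rfl⟩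
        have a4 : (cube n).Adj (flip j v) (flip j (flip i v)) := by
          rw [hcomm]
          exact adj_iff.2 ⟨i, rfl⟩
        have hne : flip i v ≠ flip j v := fun h4 => hji (flip_injective v h4).symm
        have hvc : v ≠ flip j (flip i v) := by
          intro h4
          have h5 := congrArg (flip i) h4
          rw [hcomm, flip_flip] at h5
          exact hne h5
        refine lit_common (a := g (flip i v)) (b := g (flip j v)) (z := g (flip j (flip i v)))
          (g.map_adj_iff.2 a1) (g.map_adj_iff.2 a2) ?_ ?_ (g.map_adj_iff.2 a3)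
          (g.map_adj_iff.2 a4) (fun h4 => hne (g.injective h4)) (fun h4 => hvc (g.injective h4)) ?_
        · rw [ea]; exact h.map_adj_iff.2 a1
        · rw [eb]; exact h.map_adj_iff.2 a2
        · rw [ec]; exact fun h4 => hvc (h.injective h4)
      · have h4 : v = flip i (fun _ => false) := by
          funext k
          unfold flip
          by_cases hk : k = i
          · subst hk; simp [hi]
          · rw [Function.update_of_ne hk]
            by_contra h5
            exact h3 ⟨k, hk, by simpa using h5⟩
        rw [h4]
        exact h1 i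
    · have h3 : v = fun _ => false := by
        funext i
        by_contra h4
        exact h2 ⟨i, by simpa using h4⟩
      rw [h3, h0]

end Pool.Agent.R672.Cube
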