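import Pool.Agent.R672.Cube.Lit

set_option autoImplicit false

namespace Pool.Agent.R672.Cube

open Filter Topology

/-! ### counting -/

/-- the type of the 1-ball at `v` -/
def litType {n : ℕ} (c : V n → Fin 2) (v : V n) : Fin 2 × Fin (n + 1) :=
  (c v, ⟨Fintype.card {i // c (flip i v) = 1}, by
    have h := Fintype.card_subtype_le (fun i => c (flip i v) = 1)
    rw [Fintype.card_fin] at h
    omega⟩)

/-- the multiset of the types -/
def litCode {n : ℕ} (c : V n → Fin 2) : Fin 2 × Fin (n + 1) → Fin (2 ^ n + 1) := fun t =>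
  ⟨Fintype.card {v // litType c v = t}, by
    have h := Fintype.card_subtype_le (fun v => litType c v = t)
    rw [Fintype.card_fun, Fintype.card_fin, Fintype.card_bool] at h
    omega⟩

theorem lit_locEq {n : ℕ} (c1 c2 : V n → Fin 2) (h : litCode c1 = litCode c2) :
    LocEq 1 (col c1) (col c2) := by
  obtain ⟨f, hf⟩ := lit_equiv (litType c1) (litType c2) (by
    intro t
    have h1 := congrFun h t
    exact congrArg Fin.val h1)
  refine ⟨f, fun v => ?_⟩
  have h1 := hf v
  unfold litType at h1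
  rw [Prod.mk.injEq] at h1
  exact lit_ballIso c1 c2 v (f v) h1.1.symm (congrArg Fin.val h1.2).symm

theorem col_inj {n q : ℕ} {c c' : V n → Fin q} (v w : V n) (h : col c v = col c' w) :
    c v = c' w := by
  unfold col at h
  exact Fin.ext (by omega)

/-- the key of an automorphism -/
def litKey {n : ℕ} (g : cube n ≃g cube n) : V n × (Fin n → V n) :=
  (g (fun _ => false), fun i => g (flip i (fun _ => false)))

theorem litKey_inj {n : ℕ} (g h : cube n ≃g cube n) (hk : litKey g = litKey h) (v : V n) :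
    g v = h v := by
  unfold litKey at hk
  rw [Prod.mk.injEq] at hk
  exact lit_rigid g h hk.1 (fun i => congrFun hk.2 i) _ v le_rfl

theorem lit_card (n : ℕ) : Nat.card {c : V n → Fin 2 // Distinguishable 1 (col c)} ≤
    (2 ^ n + 1) ^ (2 * (n + 1)) * (2 ^ n * (2 ^ n) ^ n) := by
  classical
  -- a representative for each code
  let rep : (Fin 2 × Fin (n + 1) → Fin (2 ^ n + 1)) →
      Option {c : V n → Fin 2 // Distinguishable 1 (col c)} := fun t =>
    if h : ∃ c : {c : V n → Fin 2 // Distinguishable 1 (col c)}, litCode c.1 = t then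
      some h.choose else none
  have hrep : ∀ c : {c : V n → Fin 2 // Distinguishable 1 (col c)},
      ∃ r : {c : V n → Fin 2 // Distinguishable 1 (col c)}, rep (litCode c.1) = some r ∧
        litCode r.1 = litCode c.1 := by
    intro c
    have h : ∃ r : {c : V n → Fin 2 // Distinguishable 1 (col c)}, litCode r.1 = litCode c.1 :=
      ⟨c, rfl⟩
    exact ⟨h.choose, dif_pos h, h.choose_spec⟩
  have hg : ∀ c : {c : V n → Fin 2 // Distinguishable 1 (col c)},
      ∃ k : V n × (Fin n → V n), ∃ r : {c : V n → Fin 2 // Distinguishable 1 (col c)},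
        ∃ g : cube n ≃g cube n, rep (litCode c.1) = some r ∧ litKey g = k ∧
        ∀ v, c.1 v = r.1 (g v) := by
    intro c
    obtain ⟨r, hr1, hr2⟩ := hrep c
    obtain ⟨g, hg⟩ := r.2 (col c.1) (lit_locEq r.1 c.1 hr2)
    exact ⟨litKey g, r, g, hr1, rfl, fun v => col_inj v (g v) (hg v)⟩
  choose k hk using hg
  have hinj : Function.Injective (fun c : {c : V n → Fin 2 // Distinguishable 1 (col c)} =>
      (litCode c.1, k c)) := by
    intro c c' h
    simp only [Prod.mk.injEq] at h
    obtain ⟨r, g, h1, h2, h3⟩ := hk c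
    obtain ⟨r', g', h1', h2', h3'⟩ := hk c'
    have hr : r = r' := by
      rw [h.1, h1'] at h1
      exact (Option.some.inj h1).symm
    have hgg : ∀ v, g v = g' v := litKey_inj g g' (by rw [h2, h2', h.2])
    apply Subtype.ext
    funext v
    rw [h3 v, h3' v, hr, hgg v]
  have h := Nat.card_le_card_of_injective _ hinj
  refine h.trans (le_of_eq ?_)
  rw [Nat.card_eq_fintype_card]
  simp [Fintype.card_prod, Fintype.card_fun, Fintype.card_fin, Fintype.card_bool]

theorem lit_pow (n : ℕ) (hn : 9 ≤ n) : 3 * n ^ 2 + 6 * n + 2 ≤ 2 ^ n := by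
  induction n, hn using Nat.le_induction with
  | base => norm_num
  | succ n hn ih =>
    have h : 2 ^ (n + 1) = 2 * 2 ^ n := by ring
    rw [h]
    nlinarith

theorem lit_bound (n : ℕ) (hn : 9 ≤ n) : prob n 2 ≤ (1 / 2 : ℝ) ^ n := by
  have h1 := lit_card n
  have h2 : (2 ^ n + 1) ^ (2 * (n + 1)) * (2 ^ n * (2 ^ n) ^ n) ≤ 2 ^ (2 ^ n - n) := by
    have h3 : (2 ^ n + 1) ^ (2 * (n + 1)) ≤ (2 ^ (n + 1)) ^ (2 * (n + 1)) := by
      apply Nat.pow_le_pow_left
      rw [pow_succ]
      have : 1 ≤ 2 ^ n := Nat.one_le_two_pow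
      omega
    calc (2 ^ n + 1) ^ (2 * (n + 1)) * (2 ^ n * (2 ^ n) ^ n)
        ≤ (2 ^ (n + 1)) ^ (2 * (n + 1)) * (2 ^ n * (2 ^ n) ^ n) := Nat.mul_le_mul_right _ h3
      _ = 2 ^ ((n + 1) * (2 * (n + 1)) + (n + n * n)) := by
          rw [← pow_mul, ← pow_mul, ← pow_add, ← pow_add]
      _ ≤ 2 ^ (2 ^ n - n) := by
          apply Nat.pow_le_pow_right (by norm_num)
          have h4 := lit_pow n hn
          have h5 : (n + 1) * (2 * (n + 1)) + (n + n * n) + n ≤ 2 ^ n := by
            refine le_trans (le_of_eq ?_) h4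
            ring
          omega
  have h3 : (Nat.card {c : V n → Fin 2 // Distinguishable 1 (col c)} : ℝ) ≤
      (2 : ℝ) ^ (2 ^ n - n) := by
    have := h1.trans h2
    exact_mod_cast this
  have h4 : (Nat.card (V n → Fin 2) : ℝ) = 2 ^ (2 ^ n) := by
    rw [Nat.card_eq_fintype_card]
    simp [Fintype.card_fun, Fintype.card_fin, Fintype.card_bool]
  unfold prob
  rw [h4, div_le_iff₀ (by positivity)]
  refine h3.trans (le_of_eq ?_)
  have h5 : n ≤ 2 ^ n := by
    have := lit_pow n hn
    nlinarith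
  have h6 : (2 : ℝ) ^ (2 ^ n) = 2 ^ n * 2 ^ (2 ^ n - n) := by
    rw [← pow_add]
    congr 1
    omega
  rw [h6, ← mul_assoc, ← mul_pow]
  norm_num

theorem prob_nonneg (n q : ℕ) : 0 ≤ prob n q := by
  unfold prob
  positivity

/-- every colouring with one colour is distinguishable -/
theorem lit_one {n : ℕ} (c : V n → Fin 1) : Distinguishable 1 (col c) := by
  rintro lam ⟨f, hf⟩
  have h1 : ∀ w, lam w = 1 := by
    intro w
    obtain ⟨φ, hφ⟩ := hf (f.symm w)
    have hw : w ∈ ball n 1 (f (f.symm w)) := by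
      rw [mem_ball1]
      left
      rw [Equiv.apply_symm_apply]
    have h2 := hφ (φ.symm ⟨w, hw⟩)
    rw [RelIso.apply_symm_apply] at h2
    change lam w = _ at h2
    rw [h2]
    unfold col
    have h3 := (c (φ.symm ⟨w, hw⟩ : _).1).2
    omega
  refine ⟨RelIso.refl _, fun v => ?_⟩
  rw [h1 v]
  unfold col
  have h3 := (c ((RelIso.refl (cube n).Adj) v)).2
  omega

theorem prob_one (n : ℕ) : prob n 1 = 1 := by
  unfold prob
  have h1 : Nat.card {c : V n → Fin 1 // Distinguishable 1 (col c)} = Nat.card (V n → Fin 1) :=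
    Nat.card_congr (Equiv.subtypeUnivEquiv lit_one)
  rw [h1]
  have h2 : Nat.card (V n → Fin 1) = 1 := by
    rw [Nat.card_eq_fintype_card]
    simp
  rw [h2]
  norm_num

theorem lit : S_LIT := by
  refine ⟨fun _ => 1, fun _ => le_rfl, ?_, ?_⟩
  · unfold Whp
    simp only [prob_one]
    exact tendsto_const_nhds
  · refine squeeze_zero' (Eventually.of_forall fun n => prob_nonneg n _)
      (g := fun n => (1 / 2 : ℝ) ^ n) ?_ ?_
    · filter_upwards [eventually_ge_atTop 9] with n hn
      exact lit_bound n hn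
    · exact tendsto_pow_atTop_nhds_zero_of_lt_one (by norm_num) (by norm_num)

end Pool.Agent.R672.Cube
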