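import Pool.Agent.R672.Cube.Basic

set_option autoImplicit false

namespace Pool.Agent.R672.Cube

open Filter Topology

/-- the colouring obtained by combining two colourings -/
def mult_comb {n k q : ℕ} (e : V n → Fin k) (c : V n → Fin q) : V n → Fin (k * q) :=
  fun v => finProdFinEquiv (e v, c v)

theorem mult_comb_inj {n k q : ℕ} {e e' : V n → Fin k} {c c' : V n → Fin q}
    (h : mult_comb e c = mult_comb e' c') : e = e' ∧ c = c' := by
  have h1 : ∀ v, (e v, c v) = (e' v, c' v) := fun v =>
    finProdFinEquiv.injective (congrFun h v)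
  exact ⟨funext fun v => congrArg Prod.fst (h1 v), funext fun v => congrArg Prod.snd (h1 v)⟩

theorem mult_col {n k q : ℕ} (e : V n → Fin k) (c : V n → Fin q) :
    (fun v => (col (mult_comb e c) v - 1) % q + 1) = col c := by
  funext v
  simp only [col, mult_comb, finProdFinEquiv_apply_val, Nat.add_sub_cancel]
  rw [Nat.add_mul_mod_self_left, Nat.mod_eq_of_lt (c v).isLt]

theorem mult_card (n k q : ℕ) :
    (Nat.card (V n → Fin (k * q)) : ℝ) = Nat.card (V n → Fin k) * Nat.card (V n → Fin q) := by
  rw [← Nat.cast_mul]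
  congr 1
  simp only [Nat.card_eq_fintype_card, Fintype.card_fun, Fintype.card_fin, mul_pow]

theorem mult_core (hA : S_A) (hB : S_B) (n k q : ℕ) (hn : 2 ≤ n) (hk : 1 ≤ k) (hq : 8 * n ≤ q) :
    prob n q - 64 * (n : ℝ) ^ 2 / 2 ^ n ≤ prob n (k * q) := by
  classical
  have hb := hB n q hn hq
  set a := (Finset.univ.filter fun c : V n → Fin q => Distinguishable 1 (col c)) with ha
  set b := (Finset.univ.filter fun c : V n → Fin q =>
    ∃ u w : V n, u ≠ w ∧ BallIso 1 (col c) (col c) u w) with hbdef
  set a' := (Finset.univ.filter fun c : V n → Fin (k * q) => Distinguishable 1 (col c)) with ha'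
  have e1 : Nat.card {c : V n → Fin q // Distinguishable 1 (col c)} = a.card := by
    rw [Nat.card_eq_fintype_card, Fintype.card_subtype]
  have e2 : Nat.card {c : V n → Fin q // ∃ u w : V n, u ≠ w ∧ BallIso 1 (col c) (col c) u w} =
      b.card := by
    rw [Nat.card_eq_fintype_card, Fintype.card_subtype]
  have e3 : Nat.card {c : V n → Fin (k * q) // Distinguishable 1 (col c)} = a'.card := by
    rw [Nat.card_eq_fintype_card, Fintype.card_subtype]
  have hinj : ((Finset.univ : Finset (V n → Fin k)) ×ˢ (a \ b)).card ≤ a'.card := by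
    refine Finset.card_le_card_of_injOn (fun p => mult_comb p.1 p.2) ?_ ?_
    · rintro ⟨e, c⟩ hp
      have hp2 := (Finset.mem_product.1 (Finset.mem_coe.1 hp)).2
      simp only [Finset.mem_sdiff] at hp2
      obtain ⟨h1, h2⟩ := hp2
      have h1' := (Finset.mem_filter.1 h1).2
      have h2' : ¬ ∃ u w : V n, u ≠ w ∧ BallIso 1 (col c) (col c) u w := fun h =>
        h2 (Finset.mem_filter.2 ⟨Finset.mem_univ _, h⟩)
      refine Finset.mem_coe.2 (Finset.mem_filter.2 ⟨Finset.mem_univ _, ?_⟩)
      refine hA n (col (mult_comb e c)) (fun m => (m - 1) % q + 1) hn ?_ ?_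
      · have := mult_col e c
        rw [this]
        exact h1'
      · intro u w huw
        have := mult_col e c
        rw [this] at huw
        by_contra hne
        exact h2' ⟨u, w, hne, huw⟩
    · rintro ⟨e, c⟩ _ ⟨e', c'⟩ _ h
      obtain ⟨h1, h2⟩ := mult_comb_inj h
      exact Prod.ext h1 h2
  rw [Finset.card_product] at hinj
  have hsd : a.card ≤ (a \ b).card + b.card := by
    have := Finset.card_le_card_sdiff_add_card (s := a) (t := b)
    exact this
  have hK : Nat.card (V n → Fin k) = (Finset.univ : Finset (V n → Fin k)).card := by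
    rw [Nat.card_eq_fintype_card, Finset.card_univ]
  have hKpos : 0 < Nat.card (V n → Fin k) := by
    rw [Nat.card_eq_fintype_card, Fintype.card_fun, Fintype.card_fin]
    exact pow_pos (by omega) _
  have hTpos : 0 < Nat.card (V n → Fin q) := by
    rw [Nat.card_eq_fintype_card, Fintype.card_fun, Fintype.card_fin]
    exact pow_pos (by omega) _
  have hKr : (0 : ℝ) < Nat.card (V n → Fin k) := by exact_mod_cast hKpos
  have hTr : (0 : ℝ) < Nat.card (V n → Fin q) := by exact_mod_cast hTpos
  rw [e2] at hb
  unfold prob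
  rw [e1, e3, mult_card]
  have h5 : ((Nat.card (V n → Fin k) : ℝ)) * ((a.card : ℝ) - b.card) ≤ a'.card := by
    have h6 : (a.card : ℝ) - b.card ≤ (a \ b).card := by
      have : (a.card : ℝ) ≤ (a \ b).card + b.card := by exact_mod_cast hsd
      linarith
    calc ((Nat.card (V n → Fin k) : ℝ)) * ((a.card : ℝ) - b.card)
        ≤ (Nat.card (V n → Fin k) : ℝ) * (a \ b).card := mul_le_mul_of_nonneg_left h6 hKr.le
      _ ≤ a'.card := by
        rw [hK]
        exact_mod_cast hinj
  have h7 : ((a.card : ℝ) - b.card) / Nat.card (V n → Fin q) ≤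
      (a'.card : ℝ) / (Nat.card (V n → Fin k) * Nat.card (V n → Fin q)) := by
    rw [div_le_div_iff₀ hTr (mul_pos hKr hTr)]
    nlinarith
  rw [sub_div] at h7
  linarith

theorem mult_le_one (n q : ℕ) : prob n q ≤ 1 := by
  unfold prob
  refine div_le_one_of_le₀ ?_ (Nat.cast_nonneg _)
  exact_mod_cast Nat.card_le_card_of_injective (fun c : {c : V n → Fin q //
    Distinguishable 1 (col c)} => c.1) Subtype.val_injective

theorem mult : S_A → S_B → S_MULT := by
  intro hA hB q k hk hq hw
  have h0 : Tendsto (fun n : ℕ => 64 * (n : ℝ) ^ 2 / 2 ^ n) atTop (𝓝 0) := by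
    have h := (tendsto_pow_const_div_const_pow_of_one_lt 2
      (one_lt_two : (1 : ℝ) < 2)).const_mul (64 : ℝ)
    rw [mul_zero] at h
    refine h.congr fun n => ?_
    ring
  have h1 : Tendsto (fun n : ℕ => prob n (q n) - 64 * (n : ℝ) ^ 2 / 2 ^ n) atTop (𝓝 1) := by
    have := Tendsto.sub hw h0
    rw [sub_zero] at this
    exact this
  refine tendsto_of_tendsto_of_tendsto_of_le_of_le' h1 tendsto_const_nhds ?_ ?_
  · filter_upwards [hq, eventually_ge_atTop 2] with n hqn hn
    exact mult_core hA hB n (k n) (q n) hn (hk n) hqn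
  · exact Eventually.of_forall fun n => mult_le_one n _

end Pool.Agent.R672.Cube
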